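import Pool.Agent.Helper54.KP.Stmts

set_option autoImplicit false

/-!
MP_2f9829_co, `K_{p-1}`: module DER (the orientation lemma).
-/

open Finset MvPolynomial

namespace Pool.Agent.Helper54.KP.Der

/-- product rule -/
theorem prodrule {K A I : Type} [CommRing K] [CommRing A] [Algebra K A] [DecidableEq I]
    (D : Derivation K A A) (s : Finset I) (f : I → A) (N : I → ℕ) :
    D (∏ i ∈ s, f i ^ N i) =
      ∑ j ∈ s, (N j : A) * (D (f j) * ∏ i ∈ s, f i ^ (Function.update N j (N j - 1) i)) := by
  induction s using Finset.induction_on with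
  | empty => simp
  | insert a s ha ih =>
    rw [Finset.prod_insert ha, Derivation.leibniz, ih, Derivation.leibniz_pow,
      Finset.sum_insert ha, Finset.prod_insert ha]
    have h1 : ∏ i ∈ s, f i ^ (Function.update N a (N a - 1) i) = ∏ i ∈ s, f i ^ N i := by
      apply Finset.prod_congr rfl
      intro i hi
      rw [Function.update_of_ne]
      rintro rfl
      exact ha hi
    rw [h1, Function.update_self]
    have h2 : ∀ j ∈ s, (N j : A) * (D (f j) * ∏ i ∈ insert a s, f i ^ (Function.update N j (N j - 1) i)) =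
        f a ^ N a * ((N j : A) * (D (f j) * ∏ i ∈ s, f i ^ (Function.update N j (N j - 1) i))) := by
      intro j hj
      rw [Finset.prod_insert ha, Function.update_of_ne]
      · ring
      · rintro rfl
        exact ha hj
    rw [Finset.sum_congr rfl h2, ← Finset.mul_sum]
    simp only [smul_eq_mul, nsmul_eq_mul]
    ring

variable {K : Type} [CommRing K] {n : ℕ}

/-- the functional `Φ_N` -/
noncomputable def Phi (c : Fin n → K) (N : Fin n → ℕ) : MvPolynomial (Fin n) K →ₗ[K] K :=
  (MvPolynomial.basisMonomials (Fin n) K).constr K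
    (fun o => ∏ i, (((N i).descFactorial (o i) : ℕ) : K) * c i ^ (N i - o i))

theorem Phi_monomial (c : Fin n → K) (N : Fin n → ℕ) (o : Fin n →₀ ℕ) (a : K) :
    Phi c N (monomial o a) = a * ∏ i, (((N i).descFactorial (o i) : ℕ) : K) * c i ^ (N i - o i) := by
  have h1 : (monomial o a : MvPolynomial (Fin n) K) =
      a • (MvPolynomial.basisMonomials (Fin n) K) o := by
    rw [MvPolynomial.coe_basisMonomials, MvPolynomial.smul_monomial, smul_eq_mul, mul_one]
  rw [h1, LinearMap.map_smul, Phi, Module.Basis.constr_basis, smul_eq_mul]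

theorem Phi_X_mul (c : Fin n → K) (N : Fin n → ℕ) (j : Fin n) (f : MvPolynomial (Fin n) K) :
    Phi c N (X j * f) = (N j : K) * Phi c (Function.update N j (N j - 1)) f := by
  induction f using MvPolynomial.induction_on' with
  | add p q hp hq => rw [mul_add, map_add, map_add, hp, hq, mul_add]
  | monomial o a =>
    rw [X, monomial_mul, one_mul, Phi_monomial, Phi_monomial]
    rw [← Finset.mul_prod_erase univ _ (Finset.mem_univ j),
      ← Finset.mul_prod_erase univ (fun i => (((Function.update N j (N j - 1) i).descFactorial (o i) : ℕ) : K) *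
        c i ^ (Function.update N j (N j - 1) i - o i)) (Finset.mem_univ j)]
    have h1 : ∏ i ∈ univ.erase j, (((N i).descFactorial ((Finsupp.single j 1 + o : Fin n →₀ ℕ) i) : ℕ) : K) *
        c i ^ (N i - (Finsupp.single j 1 + o : Fin n →₀ ℕ) i) = ∏ i ∈ univ.erase j,
        (((Function.update N j (N j - 1) i).descFactorial (o i) : ℕ) : K) *
        c i ^ (Function.update N j (N j - 1) i - o i) := by
      apply Finset.prod_congr rfl
      intro i hi
      have hij : i ≠ j := (Finset.mem_erase.1 hi).1
      rw [Function.update_of_ne hij, Finsupp.add_apply, Finsupp.single_eq_of_ne hij, zero_add]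
    rw [h1, Function.update_self, Finsupp.add_apply, Finsupp.single_eq_same]
    rcases Nat.eq_zero_or_pos (N j) with h0 | hpos
    · rw [h0, add_comm 1, Nat.zero_descFactorial_succ]
      simp
    · obtain ⟨M, hM⟩ : ∃ M, N j = M + 1 := ⟨N j - 1, by omega⟩
      rw [hM, add_comm 1 (o j), Nat.succ_descFactorial_succ, Nat.add_sub_cancel,
        Nat.add_sub_add_right]
      push_cast
      ring

/-- the orientation polynomial of a set of edges -/
noncomputable def OP (y : Fin n → K) (S : Finset (Ed n)) : MvPolynomial (Fin n) K :=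
  ∏ e ∈ S, (C (y e.1.2) * X e.1.1 - C (y e.1.1) * X e.1.2)

/-- the linear forms -/
noncomputable def LL (y : Fin n → K) (i : Fin n) : MvPolynomial (Ed n) K :=
  ∑ j, ep n K i j * C (y j)

theorem pderiv_ep (e : Ed n) (i j : Fin n) :
    pderiv e (ep n K i j) = if (i, j) = e.1 then 1 else if (j, i) = e.1 then -1 else 0 := by
  obtain ⟨⟨a, b⟩, hab⟩ := e
  simp only [ep, Matrix.of_apply]
  have hab' : a < b := hab
  by_cases h : i < j
  · rw [dif_pos h, pderiv_X]
    by_cases h1 : (i, j) = (a, b)
    · rw [if_pos h1]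
      obtain ⟨rfl, rfl⟩ := Prod.mk.inj h1
      exact Pi.single_eq_same _ _
    · rw [if_neg h1, if_neg]
      · apply Pi.single_eq_of_ne
        intro h2
        exact h1 (congrArg Subtype.val h2)
      · intro h2
        obtain ⟨rfl, rfl⟩ := Prod.mk.inj h2
        exact absurd h (not_lt_of_gt hab')
  · rw [dif_neg h]
    have hne : ¬ (i, j) = (a, b) := by
      intro h2
      obtain ⟨rfl, rfl⟩ := Prod.mk.inj h2
      exact h hab'
    rw [if_neg hne]
    by_cases h3 : j < i
    · rw [dif_pos h3, map_neg, pderiv_X]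
      by_cases h1 : (j, i) = (a, b)
      · rw [if_pos h1]
        obtain ⟨rfl, rfl⟩ := Prod.mk.inj h1
        rw [Pi.single_eq_same]
      · rw [if_neg h1, Pi.single_eq_of_ne, neg_zero]
        intro h2
        exact h1 (congrArg Subtype.val h2)
    · rw [dif_neg h3, map_zero, if_neg]
      intro h2
      obtain ⟨rfl, rfl⟩ := Prod.mk.inj h2
      exact h3 hab'

theorem pderiv_LL (y : Fin n → K) (e : Ed n) (i : Fin n) :
    pderiv e (LL y i) = if i = e.1.1 then C (y e.1.2) else if i = e.1.2 then -C (y e.1.1) else 0 := by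
  unfold LL
  rw [map_sum]
  have h1 : ∀ j, pderiv e (ep n K i j * C (y j)) =
      (if (i, j) = e.1 then 1 else if (j, i) = e.1 then -1 else 0) * C (y j) := by
    intro j
    rw [mul_comm, pderiv_C_mul, pderiv_ep, mul_comm]
  rw [Finset.sum_congr rfl (fun j _ => h1 j)]
  obtain ⟨⟨a, b⟩, hab⟩ := e
  have hab' : a < b := hab
  simp only [Prod.mk.injEq]
  by_cases ha : i = a
  · subst ha
    rw [if_pos rfl, Finset.sum_eq_single b]
    · simp
    · intro j _ hj
      rw [if_neg (fun h => hj h.2), if_neg (fun h => absurd (h.2 ▸ hab') (lt_irrefl _)), zero_mul]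
    · intro h
      exact absurd (Finset.mem_univ b) h
  · rw [if_neg ha]
    by_cases hb : i = b
    · subst hb
      rw [if_pos rfl, Finset.sum_eq_single a]
      · rw [if_neg (fun h => ha h.1), if_pos ⟨rfl, rfl⟩]
        simp
      · intro j _ hj
        rw [if_neg (fun h => ha h.1), if_neg (fun h => hj h.1), zero_mul]
      · intro h
        exact absurd (Finset.mem_univ a) h
    · rw [if_neg hb]
      apply Finset.sum_eq_zero
      intro j _
      rw [if_neg (fun h => ha h.1), if_neg (fun h => hb h.2), zero_mul]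

theorem constCoeff_LL (y : Fin n → K) (i : Fin n) : constantCoeff (LL y i) = 0 := by
  unfold LL
  rw [map_sum]
  apply Finset.sum_eq_zero
  intro j _
  rw [map_mul]
  have : constantCoeff (ep n K i j) = 0 := by
    simp only [ep, Matrix.of_apply]
    split_ifs <;> simp
  rw [this, zero_mul]

theorem main (c y : Fin n → K) (S : Finset (Ed n)) : ∀ N : Fin n → ℕ,
    coeff (∑ e ∈ S, Finsupp.single e 1) (∏ i, (C (c i) + LL y i) ^ (N i)) =
      Phi c N (OP y S) := by
  induction S using Finset.induction_on with
  | empty =>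
    intro N
    have h1 : OP y ∅ = monomial (0 : Fin n →₀ ℕ) (1 : K) := by
      unfold OP
      rw [Finset.prod_empty]
      rfl
    rw [Finset.sum_empty, h1, Phi_monomial]
    change constantCoeff _ = _
    rw [map_prod, one_mul]
    apply Finset.prod_congr rfl
    intro i _
    rw [map_pow, map_add, constCoeff_LL, add_zero, constantCoeff_C]
    simp
  | insert e S he ih =>
    intro N
    have h1 := coeff_pderiv (i := e) (∏ i, (C (c i) + LL y i) ^ (N i))
      (∑ e ∈ S, Finsupp.single e 1)
    have h2 : (∑ e ∈ S, (Finsupp.single e 1 : Ed n →₀ ℕ)) e = 0 := by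
      rw [Finsupp.finsetSum_apply]
      apply Finset.sum_eq_zero
      intro e' he'
      rw [Finsupp.single_eq_of_ne]
      rintro rfl
      exact he he'
    rw [h2, Nat.cast_zero, zero_add, mul_one] at h1
    rw [Finset.sum_insert he, add_comm, ← h1, prodrule]
    have h3 : ∀ j, ((N j : ℕ) : MvPolynomial (Ed n) K) * (pderiv e (C (c j) + LL y j) *
        ∏ i, (C (c i) + LL y i) ^ (Function.update N j (N j - 1) i)) =
        if j = e.1.1 then C ((N j : K) * y e.1.2) *
          ∏ i, (C (c i) + LL y i) ^ (Function.update N j (N j - 1) i) else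
        if j = e.1.2 then -(C ((N j : K) * y e.1.1) *
          ∏ i, (C (c i) + LL y i) ^ (Function.update N j (N j - 1) i)) else 0 := by
      intro j
      rw [map_add, pderiv_C, zero_add, pderiv_LL]
      split_ifs
      · rw [C_mul, map_natCast]
        ring
      · rw [C_mul, map_natCast]
        ring
      · ring
    rw [Finset.sum_congr rfl (fun j _ => h3 j)]
    have hne : e.1.1 ≠ e.1.2 := ne_of_lt e.2
    rw [coeff_sum, ← Finset.add_sum_erase univ _ (Finset.mem_univ e.1.1),
      ← Finset.add_sum_erase (univ.erase e.1.1) _ (Finset.mem_erase.2 ⟨hne.symm, Finset.mem_univ e.1.2⟩),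
      Finset.sum_eq_zero (s := (univ.erase e.1.1).erase e.1.2)]
    · rw [if_pos rfl, if_neg hne.symm, if_pos rfl, add_zero, coeff_C_mul, coeff_neg, coeff_C_mul,
        ih, ih]
      have h4 : OP y (insert e S) = C (y e.1.2) * (X e.1.1 * OP y S) - C (y e.1.1) * (X e.1.2 * OP y S) := by
        unfold OP
        rw [Finset.prod_insert he]
        ring
      rw [h4, map_sub, C_mul', C_mul', LinearMap.map_smul, LinearMap.map_smul, Phi_X_mul, Phi_X_mul,
        smul_eq_mul, smul_eq_mul]
      ring
    · intro j hj
      rw [Finset.mem_erase, Finset.mem_erase] at hj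
      rw [if_neg hj.2.1, if_neg hj.1, coeff_zero]

theorem OP_univ (y : Fin n → K) : OP y univ =
    (Matrix.projVandermonde (fun i => C (y i)) (fun i => (X i : MvPolynomial (Fin n) K))).det := by
  rw [Matrix.det_projVandermonde]
  unfold OP
  rw [Finset.prod_sigma']
  refine Finset.prod_bij' (fun e _ => (⟨e.1.1, e.1.2⟩ : (_ : Fin n) × Fin n))
    (fun x hx => ⟨(x.1, x.2), Finset.mem_Ioi.1 (Finset.mem_sigma.1 hx).2⟩) ?_ ?_ ?_ ?_ ?_
  · intro e _
    exact Finset.mem_sigma.2 ⟨Finset.mem_univ _, Finset.mem_Ioi.2 e.2⟩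
  · intro x _
    exact Finset.mem_univ _
  · intro e _
    rfl
  · intro x _
    rfl
  · intro e _
    rfl

theorem st_DER : ST_DER := by
  intro K _ n N c y
  have h1 : tt n = ∑ e : Ed n, Finsupp.single e 1 := by
    ext e
    rw [Finsupp.finsetSum_apply, Finset.sum_eq_single e]
    · rw [Finsupp.single_eq_same]
      rfl
    · intro e' _ hne
      exact Finsupp.single_eq_of_ne hne.symm
    · intro h
      exact absurd (Finset.mem_univ e) h
  have h2 := main c y univ N
  rw [h1]
  refine h2.trans ?_
  rw [OP_univ, ← Matrix.det_transpose, Matrix.det_apply, map_sum]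
  apply Finset.sum_congr rfl
  intro σ _
  have h3 : ∏ i, (Matrix.projVandermonde (fun i => C (y i))
      (fun i => (X i : MvPolynomial (Fin n) K))).transpose (σ i) i =
      monomial (∑ i, Finsupp.single i (Fin.rev (σ i) : ℕ)) (∏ i, y i ^ (σ i : ℕ)) := by
    rw [MvPolynomial.monomial_sum_index, map_prod, ← Finset.prod_mul_distrib]
    apply Finset.prod_congr rfl
    intro i _
    rw [Matrix.transpose_apply, Matrix.projVandermonde_apply, C_pow, ← MvPolynomial.X_pow_eq_monomial]
  rw [h3, Units.smul_def, zsmul_eq_mul, ← map_intCast (C : K →+* MvPolynomial (Fin n) K), C_mul',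
    LinearMap.map_smul, Phi_monomial, smul_eq_mul, ← Finset.prod_mul_distrib]
  congr 1
  apply Finset.prod_congr rfl
  intro i _
  have h4 : (∑ i, Finsupp.single i (Fin.rev (σ i) : ℕ) : Fin n →₀ ℕ) i = (Fin.rev (σ i) : ℕ) := by
    rw [Finsupp.finsetSum_apply, Finset.sum_eq_single i]
    · rw [Finsupp.single_eq_same]
    · intro j _ hj
      exact Finsupp.single_eq_of_ne hj.symm
    · intro h
      exact absurd (Finset.mem_univ i) h
  rw [h4, mul_assoc]

end Pool.Agent.Helper54.KP.Der
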