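import Mathlib

set_option autoImplicit false

/-!
MP_2f9829_co, `K_{p-1}`: definitions and module statements.
-/

open Finset MvPolynomial

namespace Pool.Agent.Helper54.KP

/-! ### Definitions -/

/-- the unnormalised Pfaffian `∑_σ sgn σ ∏_k B (σ a_k) (σ b_k)`, `a_k = ι (k,0)`, `b_k = ι (k,1)` -/
noncomputable def PP {m : ℕ} {V R : Type} [Fintype V] [DecidableEq V] [CommRing R]
    (ι : Fin m × Fin 2 ≃ V) (B : Matrix V V R) : R :=
  ∑ σ : Equiv.Perm V, ((Equiv.Perm.sign σ : ℤ) : R) *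
    ∏ k : Fin m, B (σ (ι (k, 0))) (σ (ι (k, 1)))

/-- the standard alternating matrix: `J a_k b_k = 1`, `J b_k a_k = -1`, other entries `0` -/
def JJ {m : ℕ} {V : Type} (R : Type) [CommRing R] (ι : Fin m × Fin 2 ≃ V) :
    Matrix V V R :=
  Matrix.of fun u v =>
    if (ι.symm u).1 = (ι.symm v).1 then
      (if (ι.symm u).2 = 0 ∧ (ι.symm v).2 = 1 then 1
        else if (ι.symm u).2 = 1 ∧ (ι.symm v).2 = 0 then -1 else 0)
    else 0

/-- the flip `(k, s) ↦ (k, 1 - s)` -/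
def flp (m : ℕ) : Equiv.Perm (Fin m × Fin 2) :=
  Equiv.prodCongrRight (fun _ => Equiv.swap 0 1)

/-- the number of permutations commuting with the flip (it is `2^m m!`) -/
def kap (m : ℕ) : ℕ :=
  (univ.filter (fun τ : Equiv.Perm (Fin m × Fin 2) => τ * flp m = flp m * τ)).card

/-- edges of `K_n` -/
abbrev Ed (n : ℕ) : Type := {e : Fin n × Fin n // e.1 < e.2}

/-- the generic alternating matrix -/
noncomputable def ep (n : ℕ) (K : Type) [CommRing K] :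
    Matrix (Fin n) (Fin n) (MvPolynomial (Ed n) K) :=
  Matrix.of fun i j => if h : i < j then X ⟨(i, j), h⟩ else
    if h : j < i then -X ⟨(j, i), h⟩ else 0

/-- the exponent `(1, ..., 1)` -/
noncomputable def tt (n : ℕ) : Ed n →₀ ℕ := Finsupp.equivFunOnFinite.symm (fun _ => 1)

/-- the edge at the half-edge `(v, i)` of `K_{d+1}`: it joins `v` and `v.succAbove i` -/
def eh (d : ℕ) (h : Fin (d + 1) × Fin d) : Ed (d + 1) :=
  if hlt : h.1 < h.1.succAbove h.2 then ⟨(h.1, h.1.succAbove h.2), hlt⟩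
  else ⟨(h.1.succAbove h.2, h.1),
    lt_of_le_of_ne (not_lt.1 hlt) (Fin.succAbove_ne h.1 h.2)⟩

/-- sign of a map (`0` if it is not a permutation) -/
def sg {d : ℕ} (f : Fin d → Fin d) : ℤ :=
  ∑ π : Equiv.Perm (Fin d), if (⇑π = f) then ((Equiv.Perm.sign π : ℤˣ) : ℤ) else 0

/-- the signed number of proper `d`-edge-colourings of `K_{d+1}` -/
def ZZ (d : ℕ) : ℤ := ∑ x : Ed (d + 1) → Fin d, ∏ v : Fin (d + 1), sg (fun i => x (eh d (v, i)))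

/-! ### Module statements -/

/-- PCONJ -/
def ST_PCONJ : Prop := ∀ (m : ℕ) (V R : Type) [Fintype V] [DecidableEq V] [CommRing R]
  (ι : Fin m × Fin 2 ≃ V) (A B : Matrix V V R),
  PP ι (A * B * A.transpose) = A.det * PP ι B

/-- KAP: `P(J) = κ`, and `κ ∣ (2m)!` -/
def ST_KAP : Prop := (∀ (m : ℕ) (V R : Type) [Fintype V] [DecidableEq V] [CommRing R]
  (ι : Fin m × Fin 2 ≃ V), PP ι (JJ R ι) = (kap m : R)) ∧ ∀ m : ℕ, kap m ∣ (2 * m).factorial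

/-- QUOT (uses PCONJ, KAP): modulo the squares of the variables,
`P(J+ε)^(p-2) = κ^(p-2) det(J+ε)^(p-1)` -/
def ST_QUOT : Prop := ∀ (p : ℕ) [Fact p.Prime], p ≠ 2 → ∀ (n m : ℕ) (ι : Fin m × Fin 2 ≃ Fin n),
  coeff (tt n) (PP ι (JJ (MvPolynomial (Ed n) (ZMod p)) ι + ep n (ZMod p)) ^ (p - 2)) =
    (kap m : ZMod p) ^ (p - 2) *
      coeff (tt n) ((JJ (MvPolynomial (Ed n) (ZMod p)) ι + ep n (ZMod p)).det ^ (p - 1))

/-- TOP: the top coefficient does not see `J` -/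
def ST_TOP : Prop := ∀ (K : Type) [CommRing K] (d m : ℕ) (ι : Fin m × Fin 2 ≃ Fin (d + 1)),
  coeff (tt (d + 1)) (PP ι (JJ (MvPolynomial (Ed (d + 1)) K) ι + ep (d + 1) K) ^ d) =
    coeff (tt (d + 1)) (PP ι (ep (d + 1) K) ^ d)

/-- SGN (sign transfer; integers) -/
def ST_SGN : Prop := ∀ (K : Type) [CommRing K] (d m : ℕ) (ι : Fin m × Fin 2 ≃ Fin (d + 1)),
  ∃ s : ℤˣ, coeff (tt (d + 1)) (PP ι (ep (d + 1) K) ^ d) =
    (((s : ℤ) * (kap m : ℤ) ^ d * ZZ d : ℤ) : K)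

/-- the pair `{u, v}` has colour `a` under `x` -/
def HasCol {n : ℕ} {α : Type} (x : Ed n → α) (u v : Fin n) (a : α) : Prop :=
  (∃ h : u < v, x ⟨(u, v), h⟩ = a) ∨ (∃ h : v < u, x ⟨(v, u), h⟩ = a)

/-- SGNA (sign lemma, half-edges): the product of the signs of the `σ_c` times the orientation signs is
the product of the signs at the vertices, up to a universal sign. -/
def ST_SGNA : Prop := ∀ (d m : ℕ) (ι : Fin m × Fin 2 ≃ Fin (d + 1)),
  ∃ s : ℤˣ, ∀ (σ : Fin d → Equiv.Perm (Fin (d + 1))) (x : Ed (d + 1) → Fin d),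
    (∀ c k, HasCol x (σ c (ι (k, 0))) (σ c (ι (k, 1))) c) →
    (∏ c, ((Equiv.Perm.sign (σ c) : ℤˣ) : ℤ)) *
      (∏ c, ∏ k : Fin m, (if σ c (ι (k, 0)) < σ c (ι (k, 1)) then (1 : ℤ) else -1)) =
    (s : ℤ) * ∏ v : Fin (d + 1), sg (fun i => x (eh d (v, i)))

open Classical in
/-- SGNB (count): a proper colouring comes from `κ^d` families -/
def ST_SGNB : Prop := ∀ (d m : ℕ) (ι : Fin m × Fin 2 ≃ Fin (d + 1)) (x : Ed (d + 1) → Fin d),
  (∏ v : Fin (d + 1), sg (fun i => x (eh d (v, i)))) ≠ 0 →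
  (univ.filter (fun σ : Fin d → Equiv.Perm (Fin (d + 1)) =>
    ∀ c k, HasCol x (σ c (ι (k, 0))) (σ c (ι (k, 1))) c)).card = kap m ^ d

open Classical in
/-- SGNC (expansion): the top coefficient of `P(ε)^d` as a sum over families -/
def ST_SGNC : Prop := ∀ (K : Type) [CommRing K] (d m : ℕ) (ι : Fin m × Fin 2 ≃ Fin (d + 1)),
  coeff (tt (d + 1)) (PP ι (ep (d + 1) K) ^ d) =
    ((∑ σ : Fin d → Equiv.Perm (Fin (d + 1)),
      ((∏ c, ((Equiv.Perm.sign (σ c) : ℤˣ) : ℤ)) *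
        (∏ c, ∏ k : Fin m, (if σ c (ι (k, 0)) < σ c (ι (k, 1)) then (1 : ℤ) else -1))) *
      ((univ.filter (fun x : Ed (d + 1) → Fin d =>
        ∀ c k, HasCol x (σ c (ι (k, 0))) (σ c (ι (k, 1))) c)).card : ℤ) : ℤ) : K)

/-- GLY (Glynn) -/
def ST_GLY : Prop := ∀ (p : ℕ) [Fact p.Prime] (n : ℕ) (R : Type) [CommRing R]
  [Algebra (ZMod p) R] (B : Matrix (Fin n) (Fin n) R),
  B.det ^ (p - 1) = (-1) ^ n * ∑ y : Fin n → ZMod p,
    ∏ i, (∑ j, B i j * algebraMap (ZMod p) R (y j)) ^ (p - 1)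

/-- DER: the orientation lemma. `Φ_N (z^o) = ∏_i N_i (N_i - 1) ... (N_i - o_i + 1) c_i^(N_i - o_i)`;
`[∏_e X_e] ∏_i (c_i + ∑_j ε_ij y_j)^(N_i) = Φ_N (∏_{i<j} (z_i y_j - z_j y_i))`, and the product on the
right is a projective Vandermonde determinant. -/
def ST_DER : Prop := ∀ (K : Type) [CommRing K] (n : ℕ) (N : Fin n → ℕ) (c y : Fin n → K),
  coeff (tt n) (∏ i, (C (c i) + ∑ j, ep n K i j * C (y j)) ^ (N i)) =
    ∑ σ : Equiv.Perm (Fin n), ((Equiv.Perm.sign σ : ℤ) : K) *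
      ∏ i, (y i ^ (σ i : ℕ) * (((N i).descFactorial (Fin.rev (σ i) : ℕ) : ℕ) : K) *
        c i ^ (N i - (Fin.rev (σ i) : ℕ)))

/-- EVAL (uses PCONJ, KAP, GLY, DER): the value is a nonzero multiple of `κ` -/
def ST_EVAL : Prop := ∀ (p : ℕ) [Fact p.Prime], p ≠ 2 → ∀ (m : ℕ), p = 2 * m + 1 →
  ∀ (ι : Fin m × Fin 2 ≃ Fin (2 * m)), (∀ k, ι (k, 1) = Fin.rev (ι (k, 0))) →
  ∃ u : ZMod p, u ≠ 0 ∧
  coeff (tt (2 * m)) ((JJ (MvPolynomial (Ed (2 * m)) (ZMod p)) ι + ep (2 * m) (ZMod p)).det ^ (p - 1)) =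
    u * (kap m : ZMod p)

/-- NONZ (uses all): the signed number of 1-factorizations of `K_{p-1}` is nonzero -/
def ST_NONZ : Prop := ∀ (p : ℕ) [Fact p.Prime], p ≠ 2 → ZZ (p - 2) ≠ 0

/-- FIN (uses NONZ and the Alon-Tarsi link): the final statement -/
def ST_FIN : Prop := ∀ p : ℕ, p.Prime → p ≠ 2 → ∀ (V : Type) [Fintype V], Fintype.card V = p - 1 →
  ∀ G : SimpleGraph V, (∃ v, ∀ w, w ≠ v → G.Adj v w) →
  ∀ k : ℕ, (G.lineGraph.Colorable k ↔ p - 2 ≤ k) ∧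
    ((∀ L : G.edgeSet → Finset ℕ, (∀ e, k ≤ (L e).card) →
      ∃ f : G.edgeSet → ℕ, (∀ e, f e ∈ L e) ∧ ∀ e e', G.lineGraph.Adj e e' → f e ≠ f e') ↔
        p - 2 ≤ k)

end Pool.Agent.Helper54.KP
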